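import Pool.Agent.H2x671.Expand

/-!
# Threshold circuits: change of index type, and the circuit of the expansion
-/

open scoped symmDiff

namespace Pool.Agent.H2x671

open Pool.Agent.Helper903_S

/-- `f` is computed by a circuit whose gates are indexed by `ι`, all of whose levels lie
between `1` and `d`. -/
def Comp (ι : Type) [Fintype ι] (n d : ℕ) (f : (Fin n → Bool) → Bool) : Prop :=
  ∃ (w : ι → Fin n → ℝ) (v : ι → ι → ℝ) (θ : ι → ℝ)
    (ℓ : ι → ℕ) (o : ι) (g : (Fin n → Bool) → ι → Bool),
    (∀ j, 1 ≤ ℓ j ∧ ℓ j ≤ d) ∧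
    (∀ j k, v j k ≠ 0 → ℓ k < ℓ j) ∧
    (∀ (x : Fin n → Bool) (j : ι),
      g x j = decide (θ j ≤ (∑ i : Fin n, w j i * (if x i then (1 : ℝ) else 0)) +
                            ∑ k : ι, v j k * (if g x k then (1 : ℝ) else 0))) ∧
    (∀ x : Fin n → Bool, g x o = f x)

theorem Comp.equiv {ι κ : Type} [Fintype ι] [Fintype κ] (e : κ ≃ ι) {n d : ℕ}
    {f : (Fin n → Bool) → Bool} (h : Comp ι n d f) : Comp κ n d f := by
  obtain ⟨w, v, θ, ℓ, o, g, h1, h2, h3, h4⟩ := h
  refine ⟨fun j => w (e j), fun j k => v (e j) (e k), fun j => θ (e j), fun j => ℓ (e j),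
    e.symm o, fun x j => g x (e j), fun j => h1 (e j), fun j k => h2 (e j) (e k), ?_, ?_⟩
  · intro x j
    have h5 : ∑ k : κ, v (e j) (e k) * (if g x (e k) then (1 : ℝ) else 0) =
        ∑ k : ι, v (e j) k * (if g x k then (1 : ℝ) else 0) :=
      Equiv.sum_comp e fun k => v (e j) k * (if g x k then (1 : ℝ) else 0)
    rw [h5]
    exact h3 x (e j)
  · intro x
    simp only [Equiv.apply_symm_apply]
    exact h4 x

/-- the set of the ones of `x` -/
def ones {n : ℕ} (x : Fin n → Bool) : Finset (Fin n) := Finset.univ.filter fun i => x i = true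

/-- `f` as a function of finite sets -/
def onSets {n : ℕ} (f : (Fin n → Bool) → Bool) (X : Finset (Fin n)) : Bool :=
  f fun i => decide (i ∈ X)

theorem onSets_ones {n : ℕ} (f : (Fin n → Bool) → Bool) (x : Fin n → Bool) :
    onSets f (ones x) = f x := by
  unfold onSets ones
  congr 1
  funext i
  simp

theorem sens_onSets {n : ℕ} (f : (Fin n → Bool) → Bool) (X : Finset (Fin n)) :
    sens (onSets f) X = (Finset.univ.filter (fun i : Fin n =>
      f (Function.update (fun i => decide (i ∈ X)) i (!(decide (i ∈ X)))) ≠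
        f (fun i => decide (i ∈ X)))).card := by
  unfold sens onSets
  congr 1
  ext i
  simp only [Finset.mem_filter, Finset.mem_univ, true_and]
  have : (fun k => decide (k ∈ X ∆ {i})) =
      Function.update (fun i => decide (i ∈ X)) i (!(decide (i ∈ X))) := by
    funext k
    by_cases hk : k = i
    · subst hk
      simp [Finset.mem_symmDiff]
    · rw [Function.update_of_ne hk]
      simp [Finset.mem_symmDiff, hk]
  rw [this]

/-- The circuit of the expansion at `y`: one gate for each nonzero derivative, and one more. -/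
theorem comp_expand {n : ℕ} (f : (Fin n → Bool) → Bool) (y : Finset (Fin n)) :
    Comp (Option {S : Finset (Fin n) // der (onSets f) y S ≠ 0}) n 2 f := by
  classical
  set F := onSets f with hF
  -- the sum computed by the gate of `S`
  have key : ∀ (S : Finset (Fin n)) (x : Fin n → Bool),
      ((((S \ y).card : ℝ) ≤ ∑ i : Fin n, (if i ∈ S then (if i ∈ y then (-1 : ℝ) else 1) else 0) *
        (if x i then (1 : ℝ) else 0)) ↔ S ⊆ ones x ∆ y) := by
    intro S x
    have c1 : ((S \ y).card : ℝ) = ∑ i : Fin n, (if i ∈ S \ y then (1 : ℝ) else 0) := by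
      rw [Finset.sum_ite_mem]; simp
    have c2 : ((S.filter fun i => ¬ (i ∈ ones x ∆ y)).card : ℝ) =
        ∑ i : Fin n, (if i ∈ S.filter (fun i => ¬ (i ∈ ones x ∆ y)) then (1 : ℝ) else 0) := by
      rw [Finset.sum_ite_mem]; simp
    have h1 : ∑ i : Fin n, (if i ∈ S then (if i ∈ y then (-1 : ℝ) else 1) else 0) *
        (if x i then (1 : ℝ) else 0) =
        ((S \ y).card : ℝ) - ((S.filter fun i => ¬ (i ∈ ones x ∆ y)).card : ℝ) := by
      rw [c1, c2, ← Finset.sum_sub_distrib]
      refine Finset.sum_congr rfl fun i _ => ?_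
      by_cases a : i ∈ S <;> by_cases b : i ∈ y <;> cases hx : x i <;>
        simp [a, b, hx, ones, Finset.mem_symmDiff]
    rw [h1]
    constructor
    · intro h i hi
      by_contra hcon
      have h2 : 0 < (S.filter fun i => ¬ (i ∈ ones x ∆ y)).card :=
        Finset.card_pos.2 ⟨i, Finset.mem_filter.2 ⟨hi, hcon⟩⟩
      have h3 : (0 : ℝ) < ((S.filter fun i => ¬ (i ∈ ones x ∆ y)).card : ℝ) := by
        exact_mod_cast h2
      linarith
    · intro h
      have h2 : (S.filter fun i => ¬ (i ∈ ones x ∆ y)) = ∅ := by
        rw [Finset.filter_eq_empty_iff]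
        intro i hi
        rw [not_not]
        exact h hi
      rw [h2]; simp
  refine ⟨fun j i => match j with
      | none => 0
      | some S => if i ∈ S.1 then (if i ∈ y then (-1 : ℝ) else 1) else 0,
    fun j k => match j, k with
      | none, some S => (-1) ^ S.1.card * (der F y S.1 : ℝ)
      | _, _ => 0,
    fun j => match j with
      | none => 1
      | some S => ((S.1 \ y).card : ℝ),
    fun j => match j with
      | none => 2
      | some _ => 1, none,
    fun x j => match j with
      | none => f x
      | some S => decide (S.1 ⊆ ones x ∆ y), ?_, ?_, ?_, ?_⟩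
  · rintro (_ | S) <;> simp
  · rintro (_ | S) (_ | T) h <;> simp_all
  · rintro x (_ | S)
    · simp only [Fintype.sum_option, zero_mul, Finset.sum_const_zero, zero_add]
      have h1 : ∑ S : {S : Finset (Fin n) // der F y S ≠ 0},
          ((-1 : ℝ) ^ S.1.card * (der F y S.1 : ℝ)) *
            (if decide (S.1 ⊆ ones x ∆ y) = true then (1 : ℝ) else 0) =
          ((ind F (ones x) : ℤ) : ℝ) := by
        rw [← expand F y (ones x)]
        push_cast
        rw [← Finset.sum_filter_add_sum_filter_not Finset.univ (fun S => der F y S ≠ 0)]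
        rw [Finset.sum_eq_zero (s := Finset.univ.filter fun S => ¬ der F y S ≠ 0)]
        · rw [add_zero, Finset.sum_subtype (p := fun S => der F y S ≠ 0)
            (Finset.univ.filter fun S => der F y S ≠ 0) (by simp)]
          refine Finset.sum_congr rfl fun S _ => ?_
          by_cases hS : S.1 ⊆ ones x ∆ y <;> simp [hS]
        · intro S hS
          rw [Finset.mem_filter, not_not] at hS
          rw [hS.2]; simp
      rw [h1]
      have h2 : F (ones x) = f x := onSets_ones f x
      unfold ind
      rw [h2]
      cases f x <;> norm_num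
    · simp only [zero_mul, Finset.sum_const_zero, add_zero]
      rw [decide_eq_decide]
      exact (key S.1 x).symm
  · intro x; rfl

end Pool.Agent.H2x671
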