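import Pool.Agent.Helper903_S.B

/-!
# A point with few nonzero discrete derivatives of all orders, and the expansion at that point
-/

open scoped symmDiff

namespace Pool.Agent.H2x671

open Pool.Agent.Helper903_S

variable {n : ℕ}

/-- Some point `y` has at most `5 ^ (s ^ 2)` nonzero derivatives (of all orders). -/
theorem exists_point_all (f : Finset (Fin n) → Bool) (s : ℕ) (hs : ∀ x, sens f x ≤ s) :
    ∃ y, ((Finset.univ : Finset (Finset (Fin n))).filter
      fun S => der f y S ≠ 0).card ≤ 5 ^ (s ^ 2) := by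
  classical
  by_contra hcon
  push Not at hcon
  have hK : (∑ r ∈ Finset.range (n + 1), 4 ^ r * (s ^ 2).choose r) ≤ 5 ^ (s ^ 2) := by
    have h1 : (∑ r ∈ Finset.range (n + 1), 4 ^ r * (s ^ 2).choose r) ≤
        ∑ r ∈ Finset.range (max n (s ^ 2) + 1), 4 ^ r * (s ^ 2).choose r := by
      apply Finset.sum_le_sum_of_subset
      intro r hr
      rw [Finset.mem_range] at hr ⊢
      have := le_max_left n (s ^ 2)
      omega
    have h2 : (∑ r ∈ Finset.range (max n (s ^ 2) + 1), 4 ^ r * (s ^ 2).choose r) =
        ∑ r ∈ Finset.range (s ^ 2 + 1), 4 ^ r * (s ^ 2).choose r := by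
      symm
      apply Finset.sum_subset
      · intro r hr
        rw [Finset.mem_range] at hr ⊢
        have := le_max_right n (s ^ 2)
        omega
      · intro r _ hr
        rw [Finset.mem_range, not_lt] at hr
        rw [Nat.choose_eq_zero_of_lt (by omega), mul_zero]
    have h3 : (∑ r ∈ Finset.range (s ^ 2 + 1), 4 ^ r * (s ^ 2).choose r) = 5 ^ (s ^ 2) := by
      have := add_pow (4 : ℕ) 1 (s ^ 2)
      rw [show (4 : ℕ) + 1 = 5 from rfl] at this
      rw [this]
      refine Finset.sum_congr rfl fun r _ => ?_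
      simp
    rw [h2, h3] at h1
    exact h1
  have h1 : ∑ r ∈ Finset.range (n + 1),
      ∑ S ∈ (Finset.univ : Finset (Fin n)).powersetCard r, ∑ y, (der f y S : ℝ) ^ 2 ≤
      ((5 ^ (s ^ 2) : ℕ) : ℝ) * 2 ^ n := by
    have h2 : ∑ r ∈ Finset.range (n + 1),
        ∑ S ∈ (Finset.univ : Finset (Fin n)).powersetCard r, ∑ y, (der f y S : ℝ) ^ 2 ≤
        ∑ r ∈ Finset.range (n + 1), (4 : ℝ) ^ r * ((s ^ 2).choose r : ℕ) * 2 ^ n :=
      Finset.sum_le_sum fun r _ => sum_der_sq f (s ^ 2) (degree_le f s hs) r
    refine le_trans h2 ?_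
    rw [← Finset.sum_mul]
    have h3 : ∑ r ∈ Finset.range (n + 1), (4 : ℝ) ^ r * ((s ^ 2).choose r : ℕ) ≤
        ((5 ^ (s ^ 2) : ℕ) : ℝ) := by
      have : ((∑ r ∈ Finset.range (n + 1), 4 ^ r * (s ^ 2).choose r : ℕ) : ℝ) ≤
        ((5 ^ (s ^ 2) : ℕ) : ℝ) := by exact_mod_cast hK
      push_cast at this ⊢
      exact this
    exact mul_le_mul_of_nonneg_right h3 (by positivity)
  have h2 : ∑ y : Finset (Fin n), (((Finset.univ : Finset (Finset (Fin n))).filter
      fun S => der f y S ≠ 0).card : ℝ) ≤
      ∑ r ∈ Finset.range (n + 1),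
      ∑ S ∈ (Finset.univ : Finset (Fin n)).powersetCard r, ∑ y, (der f y S : ℝ) ^ 2 := by
    have h3 : ∑ r ∈ Finset.range (n + 1),
        ∑ S ∈ (Finset.univ : Finset (Fin n)).powersetCard r, ∑ y, (der f y S : ℝ) ^ 2 =
        ∑ y, ∑ S : Finset (Fin n), (der f y S : ℝ) ^ 2 := by
      rw [Finset.sum_comm (s := (Finset.univ : Finset (Finset (Fin n))))
        (t := (Finset.univ : Finset (Finset (Fin n))))]
      rw [← Finset.sum_fiberwise_of_maps_to (s := (Finset.univ : Finset
        (Finset (Fin n)))) (t := Finset.range (n + 1))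
        (g := fun S => S.card) (by
          intro S _
          have := S.card_le_univ
          rw [Fintype.card_fin] at this
          exact Finset.mem_range.2 (by omega))]
      refine Finset.sum_congr rfl fun r _ => ?_
      refine Finset.sum_congr ?_ fun _ _ => rfl
      ext S
      simp only [Finset.mem_powersetCard, Finset.mem_filter, Finset.mem_univ, true_and,
        Finset.subset_univ]
    rw [h3]
    refine Finset.sum_le_sum fun y _ => ?_
    rw [Finset.card_eq_sum_ones, Finset.sum_filter]
    push_cast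
    refine Finset.sum_le_sum fun S _ => ?_
    by_cases h : der f y S = 0
    · rw [if_neg (by simpa using h)]
      exact sq_nonneg _
    · rw [if_pos h]
      have h5 : (1 : ℤ) ≤ (der f y S) ^ 2 := by
        have := sq_pos_of_ne_zero h
        omega
      exact_mod_cast h5
  have h5 : ((5 ^ (s ^ 2) : ℕ) : ℝ) * 2 ^ n < ∑ y : Finset (Fin n), (((Finset.univ : Finset
      (Finset (Fin n))).filter fun S => der f y S ≠ 0).card : ℝ) := by
    have h6 : ∑ _y : Finset (Fin n), ((5 ^ (s ^ 2) : ℕ) : ℝ) <
        ∑ y : Finset (Fin n), (((Finset.univ : Finset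
        (Finset (Fin n))).filter fun S => der f y S ≠ 0).card : ℝ) := by
      refine Finset.sum_lt_sum_of_nonempty Finset.univ_nonempty fun y _ => ?_
      exact_mod_cast hcon y
    refine lt_of_eq_of_lt ?_ h6
    rw [Finset.sum_const, Finset.card_univ, Fintype.card_finset, Fintype.card_fin, nsmul_eq_mul]
    push_cast; ring
  linarith

/-- Moebius inversion on the powerset, in the signed form. -/
theorem inversion {α : Type*} [DecidableEq α] (T : Finset α) : ∀ a : Finset α → ℤ,
    ∑ S ∈ T.powerset, (-1) ^ S.card * (∑ R ∈ S.powerset, (-1) ^ R.card * a R) = a T := by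
  induction T using Finset.induction_on with
  | empty => intro a; simp
  | insert i T hi ih =>
    intro a
    rw [Finset.sum_powerset_insert hi]
    have h1 : ∀ S ∈ T.powerset, (-1 : ℤ) ^ (insert i S).card *
        (∑ R ∈ (insert i S).powerset, (-1) ^ R.card * a R) =
        (-1) ^ S.card * (∑ R ∈ S.powerset, (-1) ^ R.card * a (insert i R)) -
        (-1) ^ S.card * (∑ R ∈ S.powerset, (-1) ^ R.card * a R) := by
      intro S hS
      have hiS : i ∉ S := fun h => hi (Finset.mem_powerset.1 hS h)
      rw [Finset.sum_powerset_insert hiS, Finset.card_insert_of_notMem hiS]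
      have h2 : ∑ R ∈ S.powerset, (-1 : ℤ) ^ (insert i R).card * a (insert i R) =
          - ∑ R ∈ S.powerset, (-1 : ℤ) ^ R.card * a (insert i R) := by
        rw [← Finset.sum_neg_distrib]
        refine Finset.sum_congr rfl fun R hR => ?_
        have hiR : i ∉ R := fun h => hiS (Finset.mem_powerset.1 hR h)
        rw [Finset.card_insert_of_notMem hiR, pow_succ]; ring
      rw [h2, pow_succ]; ring
    rw [Finset.sum_congr rfl h1, Finset.sum_sub_distrib]
    have h3 := ih (fun R => a (insert i R))
    rw [h3]; ring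

/-- The expansion of `f` at `y` through its derivatives. -/
theorem expand (f : Finset (Fin n) → Bool) (y x : Finset (Fin n)) :
    ∑ S : Finset (Fin n), (if S ⊆ x ∆ y then (-1 : ℤ) ^ S.card * der f y S else 0) = ind f x := by
  classical
  have h1 := inversion (x ∆ y) (fun R => ind f (y ∆ R))
  have h2 : y ∆ (x ∆ y) = x := by
    rw [symmDiff_comm x y, symmDiff_symmDiff_cancel_left]
  rw [h2] at h1
  rw [← h1, ← Finset.sum_filter]
  refine Finset.sum_congr ?_ fun S _ => rfl
  ext S; simp

end Pool.Agent.H2x671
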